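import Pool.Agent.H67.LW.Base

/-!
# LW, part CT: from tree decompositions to systems of clusters
-/

set_option autoImplicit false

namespace LW

open Finset

/-- from `Lk` to a path -/
theorem ct_lk_path {W : Type} {G : SimpleGraph W} {A : Finset W} {u v : W} (h : Lk G A u v) :
    ∃ p : G.Walk u v, ∀ w ∈ p.support, w ∈ A := by
  obtain ⟨h1, h2⟩ := h
  induction h2 with
  | refl => exact ⟨SimpleGraph.Walk.nil, by simpa using h1⟩
  | @tail b c hb h ih =>
    obtain ⟨p, hp⟩ := ih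
    refine ⟨p.concat h.1, ?_⟩
    intro w hw
    rw [SimpleGraph.Walk.support_concat] at hw
    rcases List.mem_append.1 hw with h' | h'
    · exact hp w h'
    · rw [List.mem_singleton] at h'
      rw [h']
      exact h.2

/-- from a walk to `Lk` -/
theorem ct_walk_lk {W : Type} {G : SimpleGraph W} {A : Finset W} {u v : W} (p : G.Walk u v)
    (hp : ∀ w ∈ p.support, w ∈ A) : Lk G A u v := by
  induction p with
  | nil => exact Lk.refl (hp _ (by simp))
  | @cons a b c h q ih =>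
    have h1 := ih fun w hw => hp w (by
      rw [SimpleGraph.Walk.support_cons]; exact List.mem_cons_of_mem _ hw)
    exact (Lk.of_adj h (hp a (by simp)) h1.left).trans h1

/-- the gate property of trees -/
theorem ct_gate {N : Type} (T : SimpleGraph N) (hT : T.IsTree) (x y u : N) (S1 S2 S : Finset N)
    (h1 : Lk T S1 x y) (h2 : Lk T S2 y u) (h12 : ∀ w ∈ S1, w ∈ S2 → w = y)
    (hS : Lk T S x u) : y ∈ S := by
  classical
  obtain ⟨p1, hp1⟩ := ct_lk_path h1
  obtain ⟨p2, hp2⟩ := ct_lk_path h2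
  obtain ⟨q, hq⟩ := ct_lk_path hS
  have hb1 : ∀ w ∈ p1.bypass.support, w ∈ S1 := fun w hw =>
    hp1 w (p1.support_bypass_subset_support hw)
  have hb2 : ∀ w ∈ p2.bypass.support, w ∈ S2 := fun w hw =>
    hp2 w (p2.support_bypass_subset_support hw)
  have hpath : (p1.bypass.append p2.bypass).IsPath := by
    rw [SimpleGraph.Walk.isPath_def, SimpleGraph.Walk.support_append, List.nodup_append]
    have hn1 := (p1.bypass_isPath).support_nodup
    have hn2 := (p2.bypass_isPath).support_nodup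
    refine ⟨hn1, hn2.sublist (List.tail_sublist _), ?_⟩
    intro a ha b hb hab
    rw [← hab] at hb
    have ha2 : a ∈ p2.bypass.support := List.mem_of_mem_tail hb
    have hay := h12 a (hb1 a ha) (hb2 a ha2)
    rw [← SimpleGraph.Walk.cons_tail_support p2.bypass] at hn2
    exact (List.nodup_cons.1 hn2).1 (hay ▸ hb)
  have heq := @Subsingleton.elim _ (hT.isAcyclic.subsingleton_path x u) ⟨_, hpath⟩ ⟨_, q.bypass_isPath⟩
  have heq' : p1.bypass.append p2.bypass = q.bypass := congrArg Subtype.val heq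
  have hy : y ∈ (p1.bypass.append p2.bypass).support := by
    rw [SimpleGraph.Walk.mem_support_append_iff]
    exact Or.inl (SimpleGraph.Walk.end_mem_support _)
  rw [heq'] at hy
  exact hq y (q.support_bypass_subset_support hy)

theorem ct_thm : S_CT := by
  classical
  intro V _ _ G k ⟨N, hN, T, B, hT, hconn, hedge, hcard⟩
  have : Fintype N := Fintype.ofFinite N
  -- the nodes of a vertex
  let Tn : V → Finset N := fun v => univ.filter fun x => v ∈ B x
  have hTn : ∀ v x, x ∈ Tn v ↔ v ∈ B x := fun v x => by simp [Tn]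
  have hlk : ∀ v x y, v ∈ B x → v ∈ B y → Lk T (Tn v) x y := by
    intro v x y hx hy
    have key : ∀ (a b : {x | v ∈ B x}), (T.induce {x | v ∈ B x}).Walk a b →
        Lk T (Tn v) a.1 b.1 := by
      intro a b p
      induction p with
      | @nil a => exact Lk.refl ((hTn v _).2 a.2)
      | @cons a b c h q ih =>
        have h1 : T.Adj a.1 b.1 := h
        exact (Lk.of_adj h1 ((hTn v _).2 a.2) ((hTn v _).2 b.2)).trans ih
    obtain ⟨p⟩ := (hconn v).preconnected ⟨x, hx⟩ ⟨y, hy⟩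
    exact key _ _ p
  -- main claim
  have main : ∀ C : Finset V, ConnS G C → (∃ x, nbr G C ⊆ B x) →
      ∃ y, (∃ v ∈ C, v ∈ B y) ∧ nbr G C ⊆ B y := by
    intro C hC ⟨x, hx⟩
    let TC : Finset N := univ.filter fun z => ∃ v ∈ C, v ∈ B z
    have hTC : ∀ z, z ∈ TC ↔ ∃ v ∈ C, v ∈ B z := fun z => by simp [TC]
    have hsub : ∀ v ∈ C, Tn v ⊆ TC := fun v hv z hz => (hTC z).2 ⟨v, hv, (hTn v z).1 hz⟩
    have hTCconn : ∀ z z', z ∈ TC → z' ∈ TC → Lk T TC z z' := by
      intro z z' hz hz'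
      obtain ⟨c, hc, hcz⟩ := (hTC z).1 hz
      obtain ⟨c', hc', hcz'⟩ := (hTC z').1 hz'
      have := (hC.2 c hc c' hc').induct (p := fun c'' => ∀ w, c'' ∈ B w → Lk T TC z w)
        (fun w hw => (hlk c z w hcz hw).mono (hsub c hc))
        (fun a ha b hb hab hp w hw => by
          obtain ⟨e, hea, heb⟩ := hedge a b hab
          exact (hp e hea).trans ((hlk b e w heb hw).mono (hsub b hb)))
      exact this z' hcz'
    obtain ⟨c0, hc0⟩ := hC.1
    obtain ⟨⟨u0, hu0⟩⟩ := (hconn c0).nonempty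
    have hu0' : u0 ∈ TC := (hTC u0).2 ⟨c0, hc0, hu0⟩
    have hxu : Lk T univ x u0 := by
      obtain ⟨p⟩ := hT.connected.preconnected x u0
      exact ct_walk_lk p fun w _ => mem_univ w
    obtain ⟨y, hy, B1, _, hB1, hL1⟩ := hxu.first hu0'
    refine ⟨y, (hTC y).1 hy, ?_⟩
    intro s hs
    obtain ⟨_, c, hc, hcs⟩ := mem_nbr.1 hs
    obtain ⟨u, hcu, hsu⟩ := hedge c s hcs
    have hu : u ∈ TC := (hTC u).2 ⟨c, hc, hcu⟩
    have h := ct_gate T hT x y u B1 TC (Tn s) hL1 (hTCconn y u hy hu)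
      (fun w hw hw' => hB1 w hw hw') (hlk s x u (hx hs) hsu)
    exact (hTn s y).1 h
  -- the system
  let Valid : Finset V → Prop := fun C => ConnS G C ∧ ∃ x, nbr G C ⊆ B x
  have hV : ∀ C, Valid C → ∃ y, (∃ v ∈ C, v ∈ B y) ∧ nbr G C ⊆ B y := fun C hC =>
    main C hC.1 hC.2
  let X : Finset V → Finset V := fun C =>
    if h : Valid C then B (hV C h).choose ∩ (C ∪ nbr G C) else ∅
  have hX : ∀ C (h : Valid C), X C = B (hV C h).choose ∩ (C ∪ nbr G C) := by
    intro C h
    simp only [X]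
    rw [dif_pos h]
  have hsubX : ∀ C, Valid C → nbr G C ⊆ X C := by
    intro C hC v hv
    rw [hX C hC, mem_inter, mem_union]
    exact ⟨(hV C hC).choose_spec.2 hv, Or.inr hv⟩
  refine ⟨Valid, X, ?_, fun C hC => hC.1, hsubX, ?_, ?_, ?_, ?_⟩
  · intro D hD
    refine ⟨hD.2.1, ?_⟩
    obtain ⟨x0⟩ := hT.connected.nonempty
    refine ⟨x0, ?_⟩
    intro v hv
    obtain ⟨hvD, u, huD, huv⟩ := mem_nbr.1 hv
    exact absurd (hD.2.2 u huD v (mem_univ v) huv) hvD
  · intro C hC
    rw [hX C hC]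
    exact inter_subset_right
  · intro C hC
    obtain ⟨v, hv, hvB⟩ := (hV C hC).choose_spec.1
    refine ⟨v, hv, ?_⟩
    rw [hX C hC, mem_inter, mem_union]
    exact ⟨hvB, Or.inl hv⟩
  · intro C hC
    rw [hX C hC]
    exact (card_le_card inter_subset_left).trans (hcard _)
  · intro C hC D hD
    refine ⟨hD.2.1, (hV C hC).choose, ?_⟩
    intro v hv
    obtain ⟨hvD, u, huD, huv⟩ := mem_nbr.1 hv
    have huC : u ∈ C := (mem_sdiff.1 (hD.1 huD)).1
    have hvX : v ∈ X C := by
      by_cases hvC : v ∈ C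
      · by_contra hvX
        exact hvD (hD.2.2 u huD v (mem_sdiff.2 ⟨hvC, hvX⟩) huv)
      · exact hsubX C hC (mem_nbr.2 ⟨hvC, u, huC, huv⟩)
    rw [hX C hC] at hvX
    exact (mem_inter.1 hvX).1

end LW
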